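import Pool.Agent.LCK.Stmts

/-! Squad LCK, row SQF: squarefree part over the fraction field, clear denominators. -/

set_option autoImplicit false

namespace Pool.Agent.LCK.H28

open Polynomial

/-- clearing denominators -/
theorem clear {R K : Type} [CommRing R] [IsDomain R] [Field K] [Algebra R K] [IsFractionRing R K]
    (p : K[X]) : ∃ (b : R) (p' : R[X]), b ≠ 0 ∧
      p'.map (algebraMap R K) = C (algebraMap R K b) * p := by
  obtain ⟨b, hb, h⟩ := IsLocalization.integerNormalization_spec (nonZeroDivisors R) p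
  refine ⟨b, IsLocalization.integerNormalization (nonZeroDivisors R) p,
    nonZeroDivisors.ne_zero hb, ?_⟩
  rw [h, ← algebraMap_smul K b p, Polynomial.smul_eq_C_mul]

/-- the algebraic core -/
theorem core {R : Type} [CommRing R] [IsDomain R] [CharZero R] (p : R[X]) (hp : p ≠ 0) :
    ∃ (q a b r : R[X]) (h1 h2 h3 : R) (N : ℕ), q ≠ 0 ∧ h1 ≠ 0 ∧ h2 ≠ 0 ∧
      a * q + b * derivative q = C h1 ∧ C h2 * q ^ N = C h3 * (p * r) := by
  classical
  let K := FractionRing R
  let : CharZero K := charZero_of_injective_algebraMap (IsFractionRing.injective R K)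
  have hinj : Function.Injective (algebraMap R K) := IsFractionRing.injective R K
  have hpK : p.map (algebraMap R K) ≠ 0 := by
    rw [Ne, Polynomial.map_eq_zero_iff hinj]
    exact hp
  obtain ⟨qK, hq⟩ : ∃ qK : K[X], qK = UniqueFactorizationMonoid.radical (p.map (algebraMap R K)) :=
    ⟨_, rfl⟩
  have hsq : Squarefree qK := by
    rw [hq]; exact UniqueFactorizationMonoid.squarefree_radical
  have hsep : qK.Separable := PerfectField.separable_iff_squarefree.2 hsq
  have hq0 : qK ≠ 0 := hsq.ne_zero
  obtain ⟨N, rK, hN⟩ : ∃ (N : ℕ) (rK : K[X]), qK ^ N = p.map (algebraMap R K) * rK := by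
    obtain ⟨N, hN⟩ := UniqueFactorizationMonoid.exists_dvd_radical_self_pow hpK
    obtain ⟨rK, h⟩ := hN
    exact ⟨N, rK, by rw [hq]; exact h⟩
  obtain ⟨aK, bK, hab⟩ := hsep
  obtain ⟨c, q, hc, hqc⟩ := clear (R := R) (K := K) qK
  obtain ⟨d1, a, hd1, had⟩ := clear (R := R) (K := K) aK
  obtain ⟨d2, b, hd2, hbd⟩ := clear (R := R) (K := K) bK
  obtain ⟨d3, r, hd3, hrd⟩ := clear (R := R) (K := K) rK
  have hmi : Function.Injective (Polynomial.map (algebraMap R K)) := Polynomial.map_injective _ hinj
  refine ⟨q, C d2 * a, C d1 * b, r, c * (d1 * d2), d3, c ^ N, N, ?_, ?_, hd3, ?_, ?_⟩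
  · intro h0
    rw [h0, Polynomial.map_zero] at hqc
    have := hqc.symm
    rcases mul_eq_zero.1 this with h | h
    · rw [Polynomial.C_eq_zero] at h
      exact hc (hinj (by rw [h, map_zero]))
    · exact hq0 h
  · exact mul_ne_zero hc (mul_ne_zero hd1 hd2)
  · apply hmi
    have hder : (derivative q).map (algebraMap R K) = C (algebraMap R K c) * derivative qK := by
      rw [← Polynomial.derivative_map, hqc, Polynomial.derivative_C_mul]
    simp only [Polynomial.map_add, Polynomial.map_mul, Polynomial.map_C, had, hbd, hqc, hder,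
      map_mul]
    calc C (algebraMap R K d2) * (C (algebraMap R K d1) * aK) * (C (algebraMap R K c) * qK) +
          C (algebraMap R K d1) * (C (algebraMap R K d2) * bK) *
            (C (algebraMap R K c) * derivative qK)
        = C (algebraMap R K c) * (C (algebraMap R K d1) * C (algebraMap R K d2)) *
            (aK * qK + bK * derivative qK) := by ring
      _ = _ := by rw [hab, mul_one]
  · apply hmi
    simp only [Polynomial.map_mul, Polynomial.map_pow, Polynomial.map_C, hqc, hrd, map_pow]
    calc C (algebraMap R K d3) * (C (algebraMap R K c) * qK) ^ N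
        = C (algebraMap R K c) ^ N * (C (algebraMap R K d3) * qK ^ N) := by ring
      _ = _ := by rw [hN]; ring

theorem sqf : SQFStmt := by
  intro m p hp
  obtain ⟨q, a, b, r, h1, h2, h3, N, hq0, hh1, hh2, e1, e2⟩ := core p hp
  refine ⟨h1 * h2 * q.leadingCoeff, q, ?_, hq0, ?_, ?_⟩
  · exact mul_ne_zero (mul_ne_zero hh1 hh2) (Polynomial.leadingCoeff_ne_zero.2 hq0)
  · intro x hx
    rw [map_mul, map_mul] at hx
    have hx1 : MvPolynomial.eval x h1 ≠ 0 := fun h => hx (by rw [h]; ring)
    have hx3 : MvPolynomial.eval x q.leadingCoeff ≠ 0 := fun h => hx (by rw [h]; ring)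
    refine ⟨hx3, fun t ht hd => hx1 ?_⟩
    have e := congrArg (fun f : Polynomial (MvPolynomial (Fin m) ℝ) => (sp f x).eval t) e1
    unfold sp at e ht hd
    simp only [Polynomial.map_add, Polynomial.map_mul, Polynomial.map_C, Polynomial.eval_add,
      Polynomial.eval_mul, Polynomial.eval_C] at e
    rw [Polynomial.derivative_map] at hd
    rw [ht, hd] at e
    rw [← e]
    ring
  · intro x hx t ht h0
    rw [map_mul, map_mul] at hx
    have hx2 : MvPolynomial.eval x h2 ≠ 0 := fun h => hx (by rw [h]; ring)
    have e := congrArg (fun f : Polynomial (MvPolynomial (Fin m) ℝ) => (sp f x).eval t) e2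
    unfold sp at e ht h0
    simp only [Polynomial.map_mul, Polynomial.map_C, Polynomial.map_pow,
      Polynomial.eval_mul, Polynomial.eval_C, Polynomial.eval_pow] at e
    rw [h0, zero_mul, mul_zero] at e
    exact mul_ne_zero hx2 (pow_ne_zero N ht) e

end Pool.Agent.LCK.H28
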